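import Pool.Agent.Helper58.FL.Tools

/-!
FL-5b PREHO: objectwise weak equivalences and mapping spaces.  The statements of the other sections
used (FL-1, FL-2, FL-3, FL-4, FL-5a) are explicit hypotheses.
-/

open CategoryTheory MonoidalCategory Simplicial Opposite HomotopicalAlgebra SSet.modelCategoryQuillen

set_option autoImplicit false

namespace Pool.Agent.Helper46.FLb

open FL

variable {A : Type} [SmallCategory A]

/-- Objectwise weak equivalences induce equivalences on mapping spaces into injectively fibrant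
objects. -/
theorem Mp_pre_hoEq
    (h_comp : ∀ {X Y Z : SSet.{0}}, SSet.KanComplex X → SSet.KanComplex Y → SSet.KanComplex Z →
      ∀ {f : X ⟶ Y} {g : Y ⟶ Z}, HoEq f → HoEq g → HoEq (f ≫ g))
    (h_tf : ∀ {E B : SSet.{0}} {p : E ⟶ B}, TrivFib p → HoEq p)
    (h_we : ∀ {X Y : SSet.{0}} {f : X ⟶ Y}, HoEq f → WE f)
    (h_we' : ∀ {X Y Z : SSet.{0}} {f : X ⟶ Y} {g : Y ⟶ Z}, WE g → WE (f ≫ g) → WE f)
    (h_kan : ∀ (X : SP A) {Z : SP A}, InjFib Z → SSet.KanComplex (Mp X Z))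
    (h_pre : ∀ {X Y Z : SP A} (i : X ⟶ Y), TrivCof i → InjFib Z → TrivFib (Mp.pre i Z))
    (h_cyl : ∀ {X Y : SP A} (f : X ⟶ Y), ∃ (C : SP A) (i : X ⟶ C) (r : C ⟶ Y),
      i ≫ r = f ∧ (∀ a, Mono (i.app a)) ∧ SDR r)
    (h_sdr : ∀ {X Y : SP A} {r : X ⟶ Y}, SDR r → ∀ Z : SP A, HoEq (Mp.pre r Z))
    (h_sdra : ∀ {X Y : SP A} {r : X ⟶ Y}, SDR r → ∀ a : Aᵒᵖ, HoEq (r.app a))
    {X Y Z : SP A} (f : X ⟶ Y) (hf : ∀ a, WE (f.app a)) (hZ : InjFib Z) :
    HoEq (Mp.pre f Z) := by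
  obtain ⟨C, i, r, hir, hi, hr⟩ := h_cyl f
  have hwi : ∀ a, WE (i.app a) := by
    intro a
    refine h_we' (g := r.app a) (h_we (h_sdra hr a)) ?_
    have h1 : i.app a ≫ r.app a = f.app a := by rw [← hir]; rfl
    rw [h1]
    exact hf a
  have h1 : HoEq (Mp.pre i Z) := h_tf (h_pre i ⟨hi, hwi⟩ hZ)
  have h2 : HoEq (Mp.pre r Z) := h_sdr hr Z
  have h3 : Mp.pre f Z = Mp.pre r Z ≫ Mp.pre i Z := by
    rw [← hir]; rfl
  rw [h3]
  exact h_comp (h_kan Y hZ) (h_kan C hZ) (h_kan X hZ) h2 h1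

/-- the inclusion of `Z(a)` into the mapping space from the representable presheaf -/
def yoIn (Z : SP A) (a : Aᵒᵖ) : Z.obj a ⟶ Mp (rep a.unop) Z where
  app k := ↾ fun (x : (Z.obj a).obj k) => (yoS (C := Z) (a := a.unop) (k := k.unop) x :
    MpS (rep a.unop) Z k.unop)
  naturality k l α := by
    ext x
    refine MpS.ext ?_
    funext b m s u
    exact congrArg ((Z.map (Quiver.Hom.op (u : b.unop ⟶ a.unop))).app m) (sset_comp _ α s.op x).symm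

/-- evaluation at the identity -/
def yoOut (Z : SP A) (a : Aᵒᵖ) : Mp (rep a.unop) Z ⟶ Z.obj a where
  app k := ↾ fun (φ : MpS (rep a.unop) Z k.unop) => φ.app a k (𝟙 _) (𝟙 a.unop : a.unop ⟶ a.unop)
  naturality k l α := by
    ext (φ : MpS (rep a.unop) Z k.unop)
    show φ.app a l (𝟙 _ ≫ α.unop) (𝟙 a.unop : a.unop ⟶ a.unop) = _
    refine Eq.trans ?_ (φ.nat_right a α (𝟙 _) (𝟙 a.unop : a.unop ⟶ a.unop))
    rw [Category.id_comp, Category.comp_id]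
    rfl

theorem yoIn_yoOut (Z : SP A) (a : Aᵒᵖ) : yoIn Z a ≫ yoOut Z a = 𝟙 _ := by
  ext k x
  show (Z.map (Quiver.Hom.op (𝟙 a.unop))).app k ((Z.obj a).map (𝟙 k.unop).op x) = x
  refine Eq.trans (congrArg _ (sset_id (Z.obj a) x)) ?_
  exact sp_id Z x

theorem InjFib.objKan (h_kan : ∀ (X : SP A) {Z : SP A}, InjFib Z → SSet.KanComplex (Mp X Z))
    {Z : SP A} (hZ : InjFib Z) : ObjKan Z := by
  intro a
  have hM := h_kan (rep a.unop) hZ
  refine (isFibrant_iff _).2 ⟨?_⟩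
  rw [SSet.modelCategoryQuillen.fibrations_eq]
  intro _ _ _ hf
  simp only [SSet.modelCategoryQuillen.J, MorphismProperty.iSup_iff] at hf
  obtain ⟨n, ⟨i⟩⟩ := hf
  refine ⟨fun {t _} _ ↦ ?_⟩
  obtain ⟨σ, hσ⟩ := SSet.KanComplex.hornFilling (S := Mp (rep a.unop) Z) (t ≫ yoIn Z a)
  refine ⟨⟨⟨σ ≫ yoOut Z a, ?_, by subsingleton⟩⟩⟩
  rw [← Category.assoc, ← hσ, Category.assoc, yoIn_yoOut, Category.comp_id]

end Pool.Agent.Helper46.FLb
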